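import Pool.Agent.W544.PG.Defs8
import Pool.Agent.W202.PG.Exp
import Pool.Agent.W368.PG.Span

/-!
# TP-PRM: factors commuting with an operator with coprime multiplicities are trivial
-/

set_option autoImplicit false

open Matrix Finset Module
open scoped ComplexOrder

namespace Pool.Agent.W378.TP

open Pool.Agent.W544.PG

variable {ι : Type} [Fintype ι] [DecidableEq ι]

theorem trace_nat {e : Matrix ι ι ℂ} (he : e * e = e) : ∃ n : ℕ, e.trace = n := by
  have h1 : IsIdempotentElem (Matrix.toLin' e) := by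
    show Matrix.toLin' e ∘ₗ Matrix.toLin' e = Matrix.toLin' e
    rw [← Matrix.toLin'_mul, he]
  have h2 := (LinearMap.IsIdempotentElem.isProj_range _ h1).trace
  rw [Matrix.trace_toLin'_eq] at h2
  exact ⟨_, h2⟩

omit [DecidableEq ι] in
theorem proj_zero {e : Matrix ι ι ℂ} (he : Proj e) (h : e.trace = 0) : e = 0 := by
  rw [← Matrix.trace_conjTranspose_mul_self_eq_zero_iff, he.2, he.1, h]

theorem proj_compl {e : Matrix ι ι ℂ} (he : Proj e) : Proj (1 - e) := by
  refine ⟨?_, ?_⟩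
  · rw [sub_mul, mul_sub, mul_sub, he.1]
    simp
  · rw [conjTranspose_sub, conjTranspose_one, he.2]

theorem com_star {S : Submodule ℂ (Matrix ι ι ℂ)} (hS : IsStar S) {a : Matrix ι ι ℂ}
    (ha : a ∈ com (S : Set (Matrix ι ι ℂ))) : aᴴ ∈ com (S : Set (Matrix ι ι ℂ)) := by
  intro s hs
  have h := ha (sᴴ) (hS.2.2 s hs)
  have h2 := congrArg conjTranspose h
  rw [conjTranspose_mul, conjTranspose_mul, conjTranspose_conjTranspose] at h2
  exact h2.symm

theorem com_one (S : Set (Matrix ι ι ℂ)) : (1 : Matrix ι ι ℂ) ∈ com S := by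
  intro s _
  rw [one_mul, mul_one]

theorem com_mul {S : Set (Matrix ι ι ℂ)} {a b : Matrix ι ι ℂ} (ha : a ∈ com S)
    (hb : b ∈ com S) : a * b ∈ com S := by
  intro s hs
  rw [mul_assoc, hb s hs, ← mul_assoc, ha s hs, mul_assoc]

/-- the centre is trivial -/
theorem centre {S : Submodule ℂ (Matrix ι ι ℂ)} (hS : IsStar S) (hF : Factor S)
    {a : Matrix ι ι ℂ} (ha : a ∈ S) (hac : a ∈ com (S : Set (Matrix ι ι ℂ))) :
    ∃ c : ℂ, a = c • (1 : Matrix ι ι ℂ) := by
  have hZ : IsStar (S ⊓ com (S : Set (Matrix ι ι ℂ))) := by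
    refine ⟨⟨hS.1, com_one _⟩, ?_, ?_⟩
    · rintro a ⟨h1, h2⟩ b ⟨h3, h4⟩
      exact ⟨hS.2.1 a h1 b h3, com_mul h2 h4⟩
    · rintro a ⟨h1, h2⟩
      exact ⟨hS.2.2 a h1, com_star hS h2⟩
  have h1 := Pool.Agent.W368.PG.span ι _ hZ ⟨ha, hac⟩
  have h2 : Submodule.span ℂ {e | e ∈ S ⊓ com (S : Set (Matrix ι ι ℂ)) ∧ Proj e} ≤
      Submodule.span ℂ {(1 : Matrix ι ι ℂ)} := by
    rw [Submodule.span_le]
    rintro e ⟨⟨h3, h4⟩, h5⟩
    rcases hF e h3 h4 h5 with h | h
    · rw [h]
      exact Submodule.zero_mem _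
    · rw [h]
      exact Submodule.mem_span_singleton_self _
  obtain ⟨c, hc⟩ := Submodule.mem_span_singleton.1 (h2 h1)
  exact ⟨c, hc.symm⟩

theorem prm : S_prm := by
  intro ι _ _ S x p q hS hF hpq hx3 hxh hx0 hx2 hn hxc s hs
  obtain ⟨E, hE1, -, hE3, hE4, hE5⟩ := Pool.Agent.W202.PG.exp ι S hS
  have hn0 : (Fintype.card ι : ℂ) ≠ 0 := by
    intro h
    have h1 : Fintype.card ι = 0 := by exact_mod_cast h
    rw [hn] at h1
    have h2 : p = 0 := by omega
    have h3 : q = 0 := by omega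
    rw [h2, h3] at hpq
    exact absurd hpq (by decide)
  -- the traces of the products
  have key : ∀ P : Matrix ι ι ℂ, P ∈ com (S : Set (Matrix ι ι ℂ)) → ∀ e ∈ S,
      (Fintype.card ι : ℂ) * (P * e).trace = P.trace * e.trace := by
    intro P hP e he
    have h1 : E P ∈ com (S : Set (Matrix ι ι ℂ)) := by
      intro a ha
      rw [← hE5 a ha, ← hE4 a ha, hP a ha]
    obtain ⟨z, hz⟩ := centre hS hF (hE1 P) h1
    have h2 := hE3 P 1 hS.1
    have h3 := hE3 P e he
    rw [hz, mul_one, mul_one, trace_smul, trace_one, smul_eq_mul] at h2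
    rw [hz, smul_mul_assoc, one_mul, trace_smul, smul_eq_mul] at h3
    rw [← h3, ← h2]
    ring
  have hx4 : x * x * (x * x) = x * x := by
    rw [← mul_assoc, hx3]
  obtain ⟨P1, hP1⟩ : ∃ P1 : Matrix ι ι ℂ, P1 = (1 / 2 : ℂ) • (x * x + x) := ⟨_, rfl⟩
  obtain ⟨P0, hP0⟩ : ∃ P0 : Matrix ι ι ℂ, P0 = 1 - x * x := ⟨_, rfl⟩
  have hP1c : P1 ∈ com (S : Set (Matrix ι ι ℂ)) := by
    rw [hP1]
    exact Submodule.smul_mem _ _ (Submodule.add_mem _ (com_mul hxc hxc) hxc)
  have hP0c : P0 ∈ com (S : Set (Matrix ι ι ℂ)) := by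
    rw [hP0]
    exact Submodule.sub_mem _ (com_one _) (com_mul hxc hxc)
  have hP1i : P1 * P1 = P1 := by
    rw [hP1, smul_mul_smul_comm, add_mul, mul_add, mul_add, hx4, hx3, ← mul_assoc, hx3]
    have : x * x + x + (x + x * x) = (2 : ℂ) • (x * x + x) := by
      rw [two_smul]
      abel
    rw [this, smul_smul]
    norm_num
  have hP0i : P0 * P0 = P0 := by
    rw [hP0, sub_mul, mul_sub, mul_sub, hx4]
    simp
  have hP1t : P1.trace = p := by
    rw [hP1, trace_smul, trace_add, hx2, hx0, smul_eq_mul]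
    ring
  have hP0t : P0.trace = q := by
    rw [hP0, trace_sub, trace_one, hx2, hn]
    push_cast
    ring
  -- projections are trivial
  have hproj : ∀ e ∈ S, Proj e → e = 0 ∨ e = 1 := by
    intro e he hep
    have hPe : ∀ P : Matrix ι ι ℂ, P ∈ com (S : Set (Matrix ι ι ℂ)) → P * P = P →
        (P * e) * (P * e) = P * e := by
      intro P hP hPP
      have h1 : P * e * (P * e) = P * P * (e * e) := by
        rw [mul_assoc, ← mul_assoc e, ← hP e he, mul_assoc P, mul_assoc P]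
      rw [h1, hPP, hep.1]
    obtain ⟨a, ha⟩ := trace_nat (hPe P1 hP1c hP1i)
    obtain ⟨b, hb⟩ := trace_nat (hPe P0 hP0c hP0i)
    obtain ⟨t, ht⟩ := trace_nat hep.1
    obtain ⟨t', ht'⟩ := trace_nat (proj_compl hep).1
    have h1 := key P1 hP1c e he
    have h2 := key P0 hP0c e he
    rw [ha, ht, hP1t] at h1
    rw [hb, ht, hP0t] at h2
    have h3 : Fintype.card ι * a = p * t := by exact_mod_cast h1
    have h4 : Fintype.card ι * b = q * t := by exact_mod_cast h2
    have h5 : t + t' = Fintype.card ι := by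
      rw [trace_sub, trace_one, ht] at ht'
      have : (t : ℂ) + t' = Fintype.card ι := by rw [← ht']; ring
      exact_mod_cast this
    have h6 : Fintype.card ι ∣ t := by
      have h7 : Fintype.card ι ∣ Nat.gcd (p * t) (q * t) :=
        Nat.dvd_gcd ⟨a, h3.symm⟩ ⟨b, h4.symm⟩
      rw [Nat.gcd_mul_right, hpq, one_mul] at h7
      exact h7
    rcases Nat.eq_zero_or_pos t with h7 | h7
    · left
      apply proj_zero hep
      rw [ht, h7, Nat.cast_zero]
    · right
      have h8 := Nat.le_of_dvd h7 h6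
      have h9 : t' = 0 := by omega
      have h10 := proj_zero (proj_compl hep) (by rw [ht', h9, Nat.cast_zero])
      exact (sub_eq_zero.1 h10).symm
  have h1 := Pool.Agent.W368.PG.span ι S hS hs
  have h2 : Submodule.span ℂ {e | e ∈ S ∧ Proj e} ≤
      Submodule.span ℂ {(1 : Matrix ι ι ℂ)} := by
    rw [Submodule.span_le]
    rintro e ⟨h3, h5⟩
    rcases hproj e h3 h5 with h | h
    · rw [h]
      exact Submodule.zero_mem _
    · rw [h]
      exact Submodule.mem_span_singleton_self _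
  obtain ⟨c, hc⟩ := Submodule.mem_span_singleton.1 (h2 h1)
  exact ⟨c, hc.symm⟩

end Pool.Agent.W378.TP
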